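import Pool.Agent.W2helper74.SOS.Stm4
import Pool.Agent.W2helper19.SOS.Basic
import Pool.Agent.W2helper4.SOS.K2
import Pool.Agent.W2helper12.SOS.J1

/-! S1FULL piece P17 (`Spf`): restriction to `ℂ^3`. -/

set_option autoImplicit false

open MvPolynomial

namespace Pool.Agent.W2helper89.SOS

open Pool.Agent.W2helper74.SOS

open Pool.Agent.W2helper19.SOS (lfL lf_single lf_add lf_smul lf_zero lf_injective lf_ne_zero res_X
  res_lf res_mul rs_mul rk_mul mem_rs res_mem res_emb_last res_emb_castSucc res_emb_eq_zero DD mem_DD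
  finrank_DD mem_EE lf_mul_mem EE_finite)

/-- homogeneous polynomials of degree `d` -/
noncomputable abbrev Hs (n d : ℕ) : Submodule ℂ (Pol n) := homogeneousSubmodule (Fin n) ℂ d

lemma lf_hom {n : ℕ} (w : Fin n → ℂ) : (lf w).IsHomogeneous 1 := by
  unfold lf
  apply IsHomogeneous.sum
  intro i _
  have := (isHomogeneous_C (Fin n) (w i)).mul (isHomogeneous_X ℂ i)
  rwa [zero_add] at this

lemma res_hom {n j d : ℕ} (T : Matrix (Fin n) (Fin j) ℂ) {p : Pol n} (hp : p.IsHomogeneous d) :
    (res T p).IsHomogeneous d := by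
  have := hp.aeval (fun k => lf (T k)) (fun k => lf_hom (T k))
  rwa [one_mul] at this

lemma hom_one {n : ℕ} {f : Pol n} (hf : f.IsHomogeneous 1) : ∃ w : Fin n → ℂ, f = lf w := by
  have h : f ∈ homogeneousSubmodule (Fin n) ℂ 1 := hf
  rw [homogeneousSubmodule_one_eq_span_X, Submodule.mem_span_range_iff_exists_fun] at h
  obtain ⟨c, rfl⟩ := h
  refine ⟨c, ?_⟩
  unfold lf
  simp only [MvPolynomial.smul_eq_C_mul]

/-- cancellation of homogeneity -/
lemma hom_cancel {n a b : ℕ} {f g : Pol n} (hf0 : f ≠ 0) (hf : f.IsHomogeneous a)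
    (hfg : (f * g).IsHomogeneous (a + b)) : g.IsHomogeneous b := by
  by_cases hg : g = 0
  · rw [hg]; exact isHomogeneous_zero _ _ _
  obtain ⟨a', b', h1, h2, h3⟩ :=
    Pool.Agent.W2helper4.SOS.isHomogeneous_of_mul (mul_ne_zero hf0 hg) hfg
  have : a = a' := hf.inj_right h1 hf0
  have : b = b' := by omega
  rw [this]
  exact h2

lemma Hs_finite (n d : ℕ) : Module.Finite ℂ (Hs n d) :=
  Module.Finite.iff_fg.2 (homogeneousSubmodule_fg (Fin n) ℂ d)

instance (n d : ℕ) : Module.Finite ℂ (Hs n d) := Hs_finite n d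

/-- the lift of a polynomial -/
lemma res_rename {j : ℕ} (p : Pol j) : res (emb j (j + 1)) (rename Fin.castSucc p) = p := by
  have : (res (emb j (j + 1))).comp (rename Fin.castSucc) = AlgHom.id ℂ (Pol j) := by
    apply MvPolynomial.algHom_ext
    intro k
    rw [AlgHom.comp_apply, rename_X, res_emb_castSucc, AlgHom.id_apply]
  exact DFunLike.congr_fun this p

lemma DD_Hs (j d : ℕ) : DD (Hs (j + 1) (d + 1)) = Hs (j + 1) d := by
  ext g
  rw [mem_DD]
  show (X (Fin.last j) * g).IsHomogeneous (d + 1) ↔ g.IsHomogeneous d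
  constructor
  · intro h
    rw [add_comm d 1] at h
    exact hom_cancel (X_ne_zero _) (isHomogeneous_X ℂ _) h
  · intro h
    have := (isHomogeneous_X ℂ (Fin.last j)).mul h
    rwa [add_comm 1 d] at this

lemma rs_Hs (j d : ℕ) : rs (Hs (j + 1) d) (emb j (j + 1)) = Hs j d := by
  apply le_antisymm
  · rintro q ⟨p, hp, rfl⟩
    exact res_hom _ hp
  · intro q hq
    refine ⟨rename Fin.castSucc q, ?_, res_rename q⟩
    exact IsHomogeneous.rename_isHomogeneous hq

lemma dim_rec (j d : ℕ) : Module.finrank ℂ (Hs (j + 1) (d + 1)) =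
    Module.finrank ℂ (Hs (j + 1) d) + Module.finrank ℂ (Hs j (d + 1)) := by
  have h := finrank_DD (Hs (j + 1) (d + 1))
  rw [DD_Hs] at h
  unfold rk at h
  rw [rs_Hs] at h
  exact h.symm

lemma dim_zero (n : ℕ) : Module.finrank ℂ (Hs n 0) = 1 := by
  have : Hs n 0 = Submodule.span ℂ {(1 : Pol n)} := by
    unfold Hs
    rw [homogeneousSubmodule_zero, Submodule.one_eq_span]
  rw [this]
  exact finrank_span_singleton one_ne_zero

lemma dim_empty (d : ℕ) : Module.finrank ℂ (Hs 0 (d + 1)) = 0 := by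
  have : Hs 0 (d + 1) = ⊥ := by
    rw [eq_bot_iff]
    intro p hp
    have h1 : p.IsHomogeneous (d + 1) := hp
    have h2 : p.IsHomogeneous 0 := isHomogeneous_of_isEmpty _ _ p
    by_contra h
    have := h1.inj_right h2 h
    omega
  rw [this, finrank_bot]

lemma dim41 : Module.finrank ℂ (Hs 4 1) = 4 := by
  have h1 := dim_rec 3 0
  have h2 := dim_rec 2 0
  have h3 := dim_rec 1 0
  have h4 := dim_rec 0 0
  have z1 := dim_zero 1
  have z2 := dim_zero 2
  have z3 := dim_zero 3
  have z4 := dim_zero 4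
  have e := dim_empty 0
  simp only [Nat.reduceAdd] at *
  omega

lemma dim42 : Module.finrank ℂ (Hs 4 2) = 10 := by
  have h1 := dim_rec 3 1
  have h2 := dim_rec 2 1
  have h3 := dim_rec 1 1
  have h4 := dim_rec 0 1
  have k1 := dim_rec 3 0
  have k2 := dim_rec 2 0
  have k3 := dim_rec 1 0
  have k4 := dim_rec 0 0
  have z1 := dim_zero 1
  have z2 := dim_zero 2
  have z3 := dim_zero 3
  have z4 := dim_zero 4
  have e := dim_empty 0
  have e' := dim_empty 1
  simp only [Nat.reduceAdd] at *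
  omega

section core
variable {j : ℕ} {U : Submodule ℂ (Pol (j + 1))}

lemma S2_mem (hX : ∀ w w' : Fin (j + 1) → ℂ, lf w * lf w' * X (Fin.last j) ∈ U) {g : Pol (j + 1)}
    (hg : g.IsHomogeneous 2) : X (Fin.last j) * g ∈ U := by
  have h : g ∈ homogeneousSubmodule (Fin (j + 1)) ℂ 1 * homogeneousSubmodule (Fin (j + 1)) ℂ 1 := by
    rw [← pow_two, homogeneousSubmodule_one_pow]
    exact hg
  refine Submodule.mul_induction_on h ?_ ?_
  · intro a ha b hb
    obtain ⟨w, rfl⟩ := hom_one ha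
    obtain ⟨w', rfl⟩ := hom_one hb
    rw [mul_comm]
    exact hX w w'
  · intro a b ha hb
    rw [mul_add]
    exact U.add_mem ha hb

lemma DD_eq (hU : ∀ p ∈ U, p.IsHomogeneous 3)
    (hX : ∀ w w' : Fin (j + 1) → ℂ, lf w * lf w' * X (Fin.last j) ∈ U) :
    DD U = Hs (j + 1) 2 := by
  apply le_antisymm
  · intro g hg
    exact hom_cancel (a := 1) (X_ne_zero _) (isHomogeneous_X ℂ _) (hU _ hg)
  · intro g hg
    exact S2_mem hX hg

lemma DD_EE_eq (hU : ∀ p ∈ U, p.IsHomogeneous 3)
    (hX : ∀ w w' : Fin (j + 1) → ℂ, lf w * lf w' * X (Fin.last j) ∈ U) :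
    DD (EE U) = Hs (j + 1) 1 := by
  apply le_antisymm
  · intro g hg
    have h1 : X (Fin.last j) * (X (Fin.last j) * g) ∈ U := hg (Fin.last j)
    have h2 := hom_cancel (a := 1) (b := 2) (X_ne_zero _) (isHomogeneous_X ℂ _) (hU _ h1)
    exact hom_cancel (a := 1) (X_ne_zero _) (isHomogeneous_X ℂ _) h2
  · intro g hg i
    have h1 : (X i * g).IsHomogeneous 2 := (isHomogeneous_X ℂ i).mul hg
    have h2 := S2_mem hX h1
    have e : X i * (X (Fin.last j) * g) = X (Fin.last j) * (X i * g) := by ring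
    show X i * (X (Fin.last j) * g) ∈ U
    rw [e]
    exact h2

lemma rs_EE_eq (hj : 1 ≤ j) (hU : ∀ p ∈ U, p.IsHomogeneous 3)
    (hX : ∀ w w' : Fin (j + 1) → ℂ, lf w * lf w' * X (Fin.last j) ∈ U) :
    rs (EE U) (emb j (j + 1)) = EE (rs U (emb j (j + 1))) := by
  apply le_antisymm
  · rintro q ⟨p, hp, rfl⟩ i
    have h1 := hp i.castSucc
    refine ⟨X i.castSucc * p, h1, ?_⟩
    show res (emb j (j + 1)) (X i.castSucc * p) = X i * res (emb j (j + 1)) p
    rw [map_mul, res_emb_castSucc]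
  · intro q hq
    have hq3 : ∀ i, (X i * q).IsHomogeneous 3 := by
      intro i
      obtain ⟨u, hu, he⟩ := hq i
      rw [← he]
      exact res_hom _ (hU u hu)
    have hq2 : q.IsHomogeneous 2 :=
      hom_cancel (a := 1) (X_ne_zero _) (isHomogeneous_X ℂ (⟨0, by omega⟩ : Fin j)) (hq3 ⟨0, by omega⟩)
    have hg2 : (rename Fin.castSucc q : Pol (j + 1)).IsHomogeneous 2 :=
      IsHomogeneous.rename_isHomogeneous hq2
    refine ⟨rename Fin.castSucc q, ?_, res_rename q⟩
    intro i
    refine Fin.lastCases ?_ (fun i => ?_) i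
    · exact S2_mem hX hg2
    · obtain ⟨u, hu, he⟩ := hq i
      have h0 : res (emb j (j + 1)) (X i.castSucc * rename Fin.castSucc q - u) = 0 := by
        rw [map_sub, map_mul, res_emb_castSucc, res_rename]
        have he' : res (emb j (j + 1)) u = X i * q := he
        rw [he', sub_self]
      obtain ⟨h, hh⟩ := res_emb_eq_zero h0
      have h3 : (X i.castSucc * rename Fin.castSucc q - u : Pol (j + 1)).IsHomogeneous 3 := by
        have := (isHomogeneous_X ℂ i.castSucc).mul hg2
        exact this.sub (hU u hu)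
      rw [hh] at h3
      have h4 : h.IsHomogeneous 2 :=
        hom_cancel (a := 1) (X_ne_zero _) (isHomogeneous_X ℂ _) h3
      have h5 := S2_mem hX h4
      rw [← hh] at h5
      have := U.add_mem h5 hu
      rwa [sub_add_cancel] at this

end core

/-! ### change of variables -/

lemma res_inv {j : ℕ} {S R : Matrix (Fin j) (Fin j) ℂ} (h : S * R = 1) (p : Pol j) :
    res R (res S p) = p := by
  have h1 := res_mul S R
  rw [h, Pool.Agent.W2helper12.SOS.res_one] at h1
  exact (DFunLike.congr_fun h1 p).symm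

lemma rk_inv {j : ℕ} (U : Submodule ℂ (Pol j)) {S R : Matrix (Fin j) (Fin j) ℂ} (h : S * R = 1) :
    Module.finrank ℂ (rs U S) = Module.finrank ℂ U := by
  have hinj : Function.Injective (res S).toLinearMap := by
    intro a b hab
    have hab' : res S a = res S b := hab
    rw [← res_inv h a, ← res_inv h b, hab']
  exact (LinearEquiv.finrank_eq (Submodule.equivMapOfInjective _ hinj U)).symm

lemma EE_inv {j : ℕ} (U : Submodule ℂ (Pol j)) {S R : Matrix (Fin j) (Fin j) ℂ} (h : S * R = 1)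
    (h' : R * S = 1) : EE (rs U S) = rs (EE U) S := by
  apply le_antisymm
  · intro g hg
    refine ⟨res R g, ?_, res_inv h' g⟩
    intro i
    have e1 : res R (lf (S i)) = X i := by
      rw [← res_X, res_inv h]
    obtain ⟨u, hu, he⟩ := lf_mul_mem hg (S i)
    have he' : res S u = lf (S i) * g := he
    have e2 : X i * res R g = u := by
      rw [← e1, ← map_mul, ← he', res_inv h]
    rw [e2]
    exact hu
  · rintro g ⟨p, hp, rfl⟩ i
    have e1 : res S (lf (R i)) = X i := by
      rw [← res_X, res_inv h']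
    refine ⟨lf (R i) * p, lf_mul_mem hp _, ?_⟩
    show res S (lf (R i) * p) = X i * res S p
    rw [map_mul, e1]

/-- an invertible matrix with given last row -/
lemma exists_last {j : ℕ} (w : Fin (j + 1) → ℂ) (hw : w ≠ 0) :
    ∃ R S : Matrix (Fin (j + 1)) (Fin (j + 1)) ℂ, S * R = 1 ∧ R * S = 1 ∧ R (Fin.last j) = w := by
  obtain ⟨i, hi⟩ : ∃ i, w i ≠ 0 := by
    by_contra h
    push Not at h
    exact hw (funext h)
  set A : Matrix (Fin (j + 1)) (Fin (j + 1)) ℂ := (1 : Matrix _ _ ℂ).updateRow i w with hA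
  have hdet : A.det = w i := by
    rw [hA, ← Matrix.cramer_transpose_apply, Matrix.transpose_one, Matrix.cramer_one]
    rfl
  set R : Matrix (Fin (j + 1)) (Fin (j + 1)) ℂ := A.submatrix (Equiv.swap i (Fin.last j)) id with hR
  have hRdet : IsUnit R.det := by
    rw [hR, Matrix.det_permute]
    rw [hdet]
    refine IsUnit.mul ?_ (isUnit_iff_ne_zero.2 hi)
    rw [isUnit_iff_ne_zero]
    rcases Int.units_eq_one_or (Equiv.Perm.sign (Equiv.swap i (Fin.last j))) with h | h <;>
      rw [h] <;> norm_num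
  refine ⟨R, R⁻¹, Matrix.nonsing_inv_mul _ hRdet, Matrix.mul_nonsing_inv _ hRdet, ?_⟩
  funext k
  show A (Equiv.swap i (Fin.last j) (Fin.last j)) k = w k
  rw [Equiv.swap_apply_right, hA, Matrix.updateRow_self]

open scoped ComplexOrder MatrixOrder in
/-- orthonormalisation -/
lemma exists_isom {n j : ℕ} (B : Matrix (Fin n) (Fin j) ℂ) (hB : Function.Injective B.mulVec) :
    ∃ H K : Matrix (Fin j) (Fin j) ℂ, H * K = 1 ∧ K * H = 1 ∧
      (B * H).conjTranspose * (B * H) = 1 := by
  have hM : (B.conjTranspose * B).PosDef := Matrix.PosDef.conjTranspose_mul_self B hB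
  obtain ⟨y, hy⟩ := CStarAlgebra.nonneg_iff_eq_star_mul_self.mp hM.posSemidef.nonneg
  have hy' : B.conjTranspose * B = y.conjTranspose * y := hy
  have hdet : IsUnit y.det := by
    have h1 : IsUnit (B.conjTranspose * B).det :=
      (Matrix.isUnit_iff_isUnit_det _).1 hM.isUnit
    rw [hy', Matrix.det_mul] at h1
    exact isUnit_of_mul_isUnit_right h1
  refine ⟨y⁻¹, y, Matrix.nonsing_inv_mul _ hdet, Matrix.mul_nonsing_inv _ hdet, ?_⟩
  rw [Matrix.conjTranspose_mul, Matrix.mul_assoc, ← Matrix.mul_assoc B.conjTranspose, hy',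
    Matrix.mul_assoc, Matrix.mul_nonsing_inv _ hdet, Matrix.mul_one, ← Matrix.conjTranspose_mul,
    Matrix.mul_nonsing_inv _ hdet, Matrix.conjTranspose_one]

lemma isom_inner {n j : ℕ} {Q : Matrix (Fin n) (Fin j) ℂ} (hQ : Q.conjTranspose * Q = 1)
    (z w : Fin j → ℂ) :
    ∑ k, (Q.mulVec z) k * star ((Q.mulVec w) k) = ∑ k, z k * star (w k) := by
  have h1 : (star (Q.mulVec w)) ⬝ᵥ (Q.mulVec z) = (star w) ⬝ᵥ z := by
    rw [Matrix.star_mulVec, Matrix.dotProduct_mulVec, Matrix.vecMul_vecMul, hQ, Matrix.vecMul_one]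
  simp only [dotProduct, Pi.star_apply] at h1
  rw [Finset.sum_congr rfl fun k _ => mul_comm _ _, h1]
  exact Finset.sum_congr rfl fun k _ => mul_comm _ _

lemma emb_inj {j : ℕ} : Function.Injective (emb j (j + 1)).mulVec := by
  intro x y h
  funext i
  have e : ∀ x : Fin j → ℂ, (emb j (j + 1)).mulVec x i.castSucc = x i := by
    intro x
    show (emb j (j + 1) i.castSucc) ⬝ᵥ x = x i
    rw [Pool.Agent.W2helper19.SOS.emb_castSucc, single_one_dotProduct]
  rw [← e x, ← e y, h]

lemma mulVec_inj_of_rank {n j : ℕ} {T : Matrix (Fin n) (Fin j) ℂ} (h : T.rank = j) :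
    Function.Injective T.mulVec := by
  have h1 := LinearMap.finrank_range_add_finrank_ker T.mulVecLin
  have h2 : Module.finrank ℂ (LinearMap.range T.mulVecLin) = j := h
  rw [h2, Module.finrank_fin_fun] at h1
  have h3 : LinearMap.ker T.mulVecLin = ⊥ := by
    rw [← Submodule.finrank_eq_zero (R := ℂ)]
    omega
  exact LinearMap.ker_eq_bot.1 h3

/-- **P17** -/
theorem spf (hMk : Mk) : Spf := by
  intro n m r d T f hT hf hff
  have hVfin : Module.Finite ℂ d.V := by
    unfold Dat.V
    exact Module.Finite.span_of_finite ℂ (Set.finite_range _)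
  have hVhom : ∀ p ∈ d.V, p.IsHomogeneous 3 := by
    intro p hp
    have hle : d.V ≤ homogeneousSubmodule (Fin n) ℂ 3 := by
      unfold Dat.V
      rw [Submodule.span_le]
      rintro _ ⟨i, rfl⟩
      exact d.p_hom i
    exact hle hp
  have hUhom : ∀ p ∈ rs d.V T, p.IsHomogeneous 3 := by
    rintro _ ⟨p, hp, rfl⟩
    exact res_hom T (hVhom p hp)
  -- `f` is a linear form
  have hf1 : f.IsHomogeneous 1 := by
    have h1 := hUhom _ (hff (Pi.single 0 1) (Pi.single 0 1))
    rw [lf_single] at h1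
    have h2 : (X 0 * X 0 : Pol 4).IsHomogeneous 2 := (isHomogeneous_X ℂ 0).mul (isHomogeneous_X ℂ 0)
    exact hom_cancel (a := 2) (mul_ne_zero (X_ne_zero _) (X_ne_zero _)) h2 h1
  obtain ⟨w, rfl⟩ := hom_one hf1
  have hw : w ≠ 0 := by
    rintro rfl
    exact hf lf_zero
  obtain ⟨R, S, hSR, hRS, hlast⟩ := exists_last w hw
  set U := rs (rs d.V T) S with hUdef
  have hUfin : Module.Finite ℂ U := by
    have : Module.Finite ℂ (rs d.V T) := Pool.Agent.W2helper12.SOS.finite_rs _ hVfin T
    exact Pool.Agent.W2helper12.SOS.finite_rs _ this S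
  have hU3 : ∀ p ∈ U, p.IsHomogeneous 3 := by
    rintro _ ⟨p, hp, rfl⟩
    exact res_hom S (hUhom p hp)
  have hX : ∀ v v' : Fin 4 → ℂ, lf v * lf v' * X (Fin.last 3) ∈ U := by
    intro v v'
    refine ⟨lf (Matrix.vecMul v R) * lf (Matrix.vecMul v' R) * lf w, hff _ _, ?_⟩
    show res S _ = _
    have e : res S (lf w) = X (Fin.last 3) := by
      rw [← hlast, ← res_X, res_inv hRS]
    rw [map_mul, map_mul, e, res_lf, res_lf, Matrix.vecMul_vecMul, Matrix.vecMul_vecMul, hRS,
      Matrix.vecMul_one, Matrix.vecMul_one]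
  -- the isometry
  set B := T * S * emb 3 4 with hB
  have hBinj : Function.Injective B.mulVec := by
    have e : B.mulVec = T.mulVec ∘ S.mulVec ∘ (emb 3 4).mulVec := by
      funext x
      simp [hB, Matrix.mulVec_mulVec, Matrix.mul_assoc]
    rw [e]
    refine (mulVec_inj_of_rank hT).comp (Function.Injective.comp ?_ emb_inj)
    intro x y hxy
    have := congrArg R.mulVec hxy
    rwa [Matrix.mulVec_mulVec, Matrix.mulVec_mulVec, hRS, Matrix.one_mulVec,
      Matrix.one_mulVec] at this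
  obtain ⟨H, K, hHK, hKH, hQ⟩ := exists_isom B hBinj
  set Q := B * H with hQdef
  obtain ⟨m', r', d', hm', hV', -⟩ := hMk 3 2 m r (fun j => res Q (d.p j)) (fun i => res Q (d.e i))
    d.a (by norm_num) d.a_herm (fun j => res_hom Q (d.p_hom j)) (fun i => res_hom Q (d.e_hom i))
    (by
      intro z w
      simp only [Pool.Agent.W2helper12.SOS.eval_res]
      rw [d.main, isom_inner hQ])
  have hspan : Submodule.span ℂ (Set.range fun j => res Q (d.p j)) = rs d.V Q := by
    unfold rs Dat.V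
    rw [Submodule.map_span, ← Set.range_comp]
    rfl
  rw [hspan] at hm' hV'
  have hrs : rs d.V Q = rs (rs U (emb 3 4)) H := by
    rw [hQdef, hB, rs_mul, rs_mul, rs_mul]
  have hjj : (1 : ℕ) ≤ 3 := by norm_num
  have hEfin : Module.Finite ℂ (EE U) := EE_finite (by norm_num) U
  refine ⟨m', r', d', ?_, ?_⟩
  · rw [hm', hrs, rk_inv _ hHK]
    have h : 10 + Module.finrank ℂ (rs U (emb 3 4)) = Module.finrank ℂ U := by
      have h := finrank_DD U
      rw [DD_eq hU3 hX, dim42] at h
      exact h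
    have h2 : Module.finrank ℂ U = rk d.V T := rk_inv _ hSR
    omega
  · rw [hV', hrs, EE_inv _ hHK hKH, rk_inv _ hHK, ← rs_EE_eq hjj hU3 hX]
    have h : 4 + Module.finrank ℂ (rs (EE U) (emb 3 4)) = Module.finrank ℂ (EE U) := by
      have h := finrank_DD (EE U)
      rw [DD_EE_eq hU3 hX, dim41] at h
      exact h
    have h2 : Module.finrank ℂ (EE U) = Module.finrank ℂ (EE (rs d.V T)) := by
      rw [hUdef, EE_inv _ hSR hRS, rk_inv _ hSR]
    rw [← h2, ← h]
    exact Nat.add_comm _ _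

end Pool.Agent.W2helper89.SOS
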